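import Mathlib
import Pool.Agent.Run7.h132.WD

/-!
# Primitive characters and noncentral chief factors

Let `χ` be a primitive irreducible complex character of a finite group `G` and let `K / L` be a
noncentral chief factor of `G`. Suppose that

(A) `K / L` is not contained in the Frattini subgroup of `G / L`, or `χ` vanishes on `K \ L`; and

(B) `K / L` has odd prime power order, or the restrictions of `χ` to `K` and to `L` have the same
norm.

Then some irreducible character of a proper self-normalizing subgroup of `G` has the same field of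
values as `χ`.
-/

set_option autoImplicit false

namespace Pool.Agent.Results.MP_b1ffdf_al.ChiefFactors

open Run7.h132 Pool.Agent.Helper606_LC Pool.Agent.W446.AS

open Classical in
/-- `χ` is primitive: it is not induced from a character of a proper subgroup. -/
def Primitive {G : Type} [Group G] [Fintype G] (χ : G → ℂ) : Prop :=
  ¬ ∃ (K : Subgroup G) (W : FDRep ℂ K), K ≠ ⊤ ∧
    ∀ g : G, χ g = (Nat.card K : ℂ)⁻¹ *
      ∑ x : G, (if h : x * g * x⁻¹ ∈ K then W.character ⟨x * g * x⁻¹, h⟩ else 0)

/-- `K / L` is a noncentral chief factor of `G`: `L < K` are normal subgroups of `G`, no normal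
subgroup of `G` lies strictly between them, and `[G, K]` is not contained in `L`. -/
def NoncentralChief {G : Type} [Group G] (L K : Subgroup G) : Prop :=
  L.Normal ∧ K.Normal ∧ L < K ∧
    (∀ N : Subgroup G, N.Normal → L ≤ N → N ≤ K → N = L ∨ N = K) ∧
    ∃ g : G, ∃ k ∈ K, g * k * g⁻¹ * k⁻¹ ∉ L

/-- Some maximal subgroup of `G` contains `L` but not `K`; that is, `K / L` is not contained in the
Frattini subgroup of `G / L`. -/
def NonFrattini {G : Type} [Group G] (L K : Subgroup G) : Prop :=
  ∃ U : Subgroup G, IsCoatom U ∧ L ≤ U ∧ ¬ K ≤ U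

/-- The inner product of the restriction of `χ` to `H` with itself. -/
noncomputable def normOn {G : Type} [Group G] (χ : G → ℂ) (H : Subgroup G) : ℂ :=
  (Nat.card H : ℂ)⁻¹ * ∑ᶠ h : H, χ h * χ (h : G)⁻¹

/-- The field generated over `ℚ` by the values of `χ`. -/
noncomputable def ValField {G : Type} (χ : G → ℂ) : IntermediateField ℚ ℂ :=
  IntermediateField.adjoin ℚ (Set.range χ)

lemma normOn_eq {G : Type} [Group G] [Finite G] (χ : G → ℂ) (H : Subgroup G) :
    normOn χ H = pr (fun h : H => χ h) (fun h : H => χ h) := by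
  classical
  have : Fintype H := Fintype.ofFinite H
  rw [pr_eq, normOn, finsum_eq_sum_of_fintype]
  rfl

/-- The chief factor theorem. -/
theorem result (G : Type) [Group G] [Fintype G] (V : FDRep ℂ G) (hV : CategoryTheory.Simple V)
    (hprim : Primitive V.character) (L K : Subgroup G) (hLK : NoncentralChief L K)
    (hA : NonFrattini L K ∨ ∀ k ∈ K, k ∉ L → V.character k = 0)
    (hB : (∃ p a : ℕ, p.Prime ∧ p ≠ 2 ∧ L.relIndex K = p ^ a) ∨
      normOn V.character K = normOn V.character L) :
    ∃ (H : Subgroup G) (W : FDRep ℂ H), H ≠ ⊤ ∧ Subgroup.normalizer (H : Set G) = H ∧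
      CategoryTheory.Simple W ∧ ValField V.character = ValField W.character := by
  have hχ := irr_of_simple V hV
  have hp := prim_of_fd hprim
  have hnc : NC L K := ⟨hLK.1, hLK.2.1, hLK.2.2.1.le, hLK.2.2.2.1, hLK.2.2.2.2⟩
  apply fd_of_mch V hV
  rcases hA with ⟨U, hU, hLU, hKU⟩ | hvan
  · rcases hB with ⟨p, a, hpp, hodd, hcard⟩ | hn
    · exact chief_odd hχ hp hnc hpp hodd ⟨a, hcard⟩ hU hLU hKU
    · rw [normOn_eq, normOn_eq] at hn
      exact chief_norm hχ hp hnc hU hLU hKU hn
  · rcases hB with ⟨p, a, hpp, hodd, hcard⟩ | hn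
    · exact chief_van hχ hp hnc hpp hodd ⟨a, hcard⟩ hvan
    · rw [normOn_eq, normOn_eq] at hn
      exact (norm_ne_of_van hχ hLK.2.2.1 hvan hn).elim

end Pool.Agent.Results.MP_b1ffdf_al.ChiefFactors
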