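import Mathlib
import Pool.Agent.Run7.h132.NR

/-!
# Primitive characters of groups with a non-nilpotent solvable quotient

Let `G` be a finite group which has a solvable quotient that is not nilpotent. Then every primitive
irreducible complex character of `G` has the same field of values as some irreducible character of
a proper self-normalizing subgroup of `G`.
-/

set_option autoImplicit false

namespace Pool.Agent.Results.MP_b1ffdf_al.SolvableQuotient

open Run7.h132 Pool.Agent.Helper606_LC Pool.Agent.W446.AS

open Classical in
/-- `χ` is primitive: it is not induced from a character of a proper subgroup. -/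
def Primitive {G : Type} [Group G] [Fintype G] (χ : G → ℂ) : Prop :=
  ¬ ∃ (K : Subgroup G) (W : FDRep ℂ K), K ≠ ⊤ ∧
    ∀ g : G, χ g = (Nat.card K : ℂ)⁻¹ *
      ∑ x : G, (if h : x * g * x⁻¹ ∈ K then W.character ⟨x * g * x⁻¹, h⟩ else 0)

/-- The field generated over `ℚ` by the values of `χ`. -/
noncomputable def ValField {G : Type} (χ : G → ℂ) : IntermediateField ℚ ℂ :=
  IntermediateField.adjoin ℚ (Set.range χ)

/-- Question 1 has a positive answer for all finite groups with a solvable quotient which is not
nilpotent. -/
theorem result (G : Type) [Group G] [Fintype G] (N : Subgroup G) [N.Normal]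
    (hs : Group.IsSolvable (G ⧸ N)) (hn : ¬ Group.IsNilpotent (G ⧸ N))
    (V : FDRep ℂ G) (hV : CategoryTheory.Simple V) (hprim : Primitive V.character) :
    ∃ (H : Subgroup G) (W : FDRep ℂ H), H ≠ ⊤ ∧ Subgroup.normalizer (H : Set G) = H ∧
      CategoryTheory.Simple W ∧ ValField V.character = ValField W.character :=
  fd_of_mch V hV (nonnilp (irr_of_simple V hV) (prim_of_fd hprim) hs hn)

end Pool.Agent.Results.MP_b1ffdf_al.SolvableQuotient
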