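import Mathlib
import Pool.Agent.Run7.h132.TI2

/-!
# Fields of values and strongly embedded subgroups

Let `χ` be an irreducible complex character of a finite group `G`, let `p` be a prime and let
`p ^ a` (with `a > 0`) divide the conductor of the field of values of `χ`. Let `H` be a proper
subgroup of `G` which contains a `p`-element of order at least `p ^ a` and such that no such
element of `H` is conjugate into `H` by an element outside `H`; for `a = 1` this says that `H` is
strongly `p`-embedded. Then `H` is self-normalizing and has an irreducible character with the same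
field of values as `χ`.
-/

set_option autoImplicit false

namespace Pool.Agent.Results.MP_b1ffdf_al.StronglyEmbedded

open Run7.h132 Pool.Agent.Helper606_LC

/-- The cyclotomic field generated by the complex `m`-th roots of unity. -/
noncomputable def Cyc (m : ℕ) : IntermediateField ℚ ℂ :=
  IntermediateField.adjoin ℚ {z : ℂ | z ^ m = 1}

/-- The field of values of a character. -/
noncomputable def ValField {G : Type} (χ : G → ℂ) : IntermediateField ℚ ℂ :=
  IntermediateField.adjoin ℚ (Set.range χ)

/-- The elements of `p`-power order at least `p ^ a`. -/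
def BigElement (p a : ℕ) {G : Type} [Group G] (y : G) : Prop :=
  ∃ k : ℕ, a ≤ k ∧ orderOf y = p ^ k

/-- `H` is a proper subgroup of `G` which contains an element of `p`-power order at least `p ^ a`,
and the only elements of `G` which conjugate some such element of `H` into `H` are the elements
of `H`. For `a = 1`, `H` is a strongly `p`-embedded subgroup of `G`. -/
def StrEmb (p a : ℕ) {G : Type} [Group G] (H : Subgroup G) : Prop :=
  H ≠ ⊤ ∧ (∃ y ∈ H, BigElement p a y) ∧
    ∀ y ∈ H, BigElement p a y → ∀ x : G, x * y * x⁻¹ ∈ H → x ∈ H

/-- A strongly embedded subgroup is self-normalizing and has an irreducible character with the same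
field of values. -/
theorem result (G : Type) [Group G] [Fintype G] (V : FDRep ℂ G) (hV : CategoryTheory.Simple V)
    (p a : ℕ) (hp : p.Prime) (ha : 0 < a)
    (hcond : ∀ n : ℕ, 0 < n → ValField V.character ≤ Cyc n → p ^ a ∣ n)
    (H : Subgroup G) (hH : StrEmb p a H) :
    Subgroup.normalizer (H : Set G) = H ∧ ∃ W : FDRep ℂ H, CategoryTheory.Simple W ∧
      ValField V.character = ValField W.character := by
  obtain ⟨-, ⟨y, hy, k, hk, hyk⟩, hemb⟩ := hH
  obtain ⟨h1, ψ, hψ, h2⟩ := emb_transfer (irr_of_simple V hV) hp ha (fun n hn h => hcond n hn (by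
      rw [ValField, IntermediateField.adjoin_le_iff, Set.range_subset_iff]
      exact h)) H ⟨y, hy, ⟨k, hyk⟩, by rw [hyk]; exact pow_dvd_pow p hk⟩ (by
      rintro z hz ⟨j, hj⟩ hd x hx
      refine hemb z hz ⟨j, ?_, hj⟩ x hx
      rw [hj] at hd
      exact (Nat.pow_dvd_pow_iff_le_right hp.one_lt).mp hd)
  obtain ⟨W, hW, rfl⟩ := exists_fdrep hψ
  exact ⟨h1, W, hW, adjoin_eq_of_pw Nat.card_pos dvd_rfl (Subgroup.card_subgroup_dvd_card H)
    (irr_of_simple V hV) hψ h2⟩

end Pool.Agent.Results.MP_b1ffdf_al.StronglyEmbedded
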